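import Pool.Agent.H394R2.Ones3

/-!
Lower bound for the digit sums of square roots, in particular for the number of ones among the
first `n` binary digits of `√2`.
-/

set_option autoImplicit false

namespace Pool.Agent.Results.MP_0308e6_nt.DigitSum

/-- For every positive integer `d` that is not a perfect square and every base `b ≥ 2` there is a
constant `C` such that for all `n` the sum of the first `n` base `b` digits of `√d` after the point
is at least `7 √((b - 1) gcd(b, 2) / 48) √n - C`.  For `d = b = 2`: at least `(7 / √24) √n - C` of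
the first `n` binary digits of `√2` are ones. -/
theorem result (d b : ℕ) (hd : ¬ IsSquare d)
    (hb : 2 ≤ b) :
    ∃ C : ℝ, ∀ n : ℕ,
      7 * Real.sqrt (((b : ℝ) - 1) * (Nat.gcd b 2 : ℕ) / 48) * Real.sqrt n - C ≤
        ((∑ k ∈ Finset.range n, ⌊Real.sqrt d * (b : ℝ) ^ (k + 1)⌋₊ % b : ℕ) : ℝ) :=
  Pool.Agent.H394R2.Ones.digit_sum d b hd hb

end Pool.Agent.Results.MP_0308e6_nt.DigitSum
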