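import Pool.Agent.H323R2.Rel3

/-!
Linear relations between consecutive binary digits of `√2` fail often.
-/

set_option autoImplicit false

namespace Pool.Agent.Results.MP_0308e6_nt.LinearRelations

open Polynomial Finset Pool.Agent.H323R2

variable (m : ℕ) (q : ℕ → ℤ) (e : ℤ)

/-- The indices `K ≤ N` with a defect nearby or bad divisibility. -/
lemma cover (hA : ∑ j ∈ range (m + 1), q j * 2 ^ j ≠ 0)
    (h1 : ∑ j ∈ range (m + 1), q j ≠ e) :
    ∃ (C : ℝ) (a : ℕ) (D : ℕ), 0 < C ∧ 1 ≤ D ∧ ∀ T : ℕ, D ≤ T →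
      (((range (T / D + 1)).filter (fun K : ℕ => ¬ (e = 0 ∧ fs (K + a + 1) % 2 = 0))).card : ℝ) ≤
        C * (1 + (dfc m q e T : ℝ)) ^ (∑ j ∈ range (m + 1), q j * 2 ^ j).natAbs := by
  set A : ℤ := ∑ j ∈ range (m + 1), q j * 2 ^ j with hAdef
  obtain ⟨a, A', hodd, hAA⟩ : ∃ (a : ℕ) (A' : ℤ), ¬ (2 : ℤ) ∣ A' ∧ A = 2 ^ a * A' := by
    have hfin : FiniteMultiplicity (2 : ℤ) A := by
      rw [Int.finiteMultiplicity_iff]
      exact ⟨by norm_num, hA⟩
    obtain ⟨A', hA', hnd⟩ := hfin.exists_eq_pow_mul_and_not_dvd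
    exact ⟨_, A', hnd, hA'⟩
  have hA'0 : A' ≠ 0 := by rintro rfl; simp at hodd
  obtain ⟨L, hL⟩ := local_const m q e A' a hAA hA'0 h1
  set Q := A'.natAbs with hQ
  have hQodd : Odd Q := by
    rw [Nat.odd_iff, hQ]; omega
  have hQ1 : 1 ≤ Q := hQodd.pos
  have hQdvd : ∀ u : ℤ, (Q : ℤ) ∣ u ↔ A' ∣ u := fun u => Int.natAbs_dvd
  have hQA : (Q : ℤ) ∣ A := by rw [hQdvd, hAA]; exact Dvd.intro_left _ rfl
  have hQle : Q ≤ A.natAbs := by
    rw [hAA, Int.natAbs_mul, Int.natAbs_pow]
    exact Nat.le_mul_of_pos_left _ (by positivity)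
  obtain ⟨C1, hC1, hbad⟩ := nondvd_bound Q hQodd A hA hQA (UU m q e) _ (UU_approx m q e)
  set u : ℝ := |(UU m q e 0 : ℝ)| with hu
  set B : ℝ := ((∑ j ∈ range (m + 1), |q j| + |e| : ℤ) : ℝ) with hB
  have hu0 : 0 ≤ u := abs_nonneg _
  have hB0 : 0 ≤ B := by
    rw [hB]
    have : 0 ≤ ∑ j ∈ range (m + 1), |q j| + |e| := add_nonneg
      (Finset.sum_nonneg fun j _ => abs_nonneg _) (abs_nonneg _)
    exact_mod_cast this
  refine ⟨C1 * (1 + u + B) ^ Q + L + 1, a, Q + L + 1, by positivity, by omega, ?_⟩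
  intro T hT
  set N := T / (Q + L + 1) with hN
  have hN1 : 1 ≤ N := (Nat.one_le_div_iff (by omega)).2 hT
  have hNT : N * (Q + L + 1) ≤ T := Nat.div_mul_le_self _ _
  have hQN : Q * N ≤ T := by nlinarith
  have hLN : N + L ≤ T := by nlinarith
  -- the covering
  have hsub : (range (N + 1)).filter (fun K : ℕ => ¬ (e = 0 ∧ fs (K + a + 1) % 2 = 0)) ⊆
      (range (N + 1)).filter (fun K => ¬ (Q : ℤ) ∣ UU m q e K) ∪
      (range L).biUnion (fun i => (range (N + 1)).filter (fun K =>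
        ∑ j ∈ range (m + 1), q j * (fs (K + i + 1 + j) % 2) ≠ e)) := by
    intro K hK
    rw [Finset.mem_filter] at hK
    rw [Finset.mem_union, Finset.mem_filter, Finset.mem_biUnion]
    by_contra hcon
    push Not at hcon
    apply hK.2
    have hd : A' ∣ UU m q e K := (hQdvd _).1 (by
      by_contra h; exact absurd (hcon.1 hK.1) (not_not.2 h |> fun h' => by simpa using h'))
    apply hL K hd
    intro i hi
    by_contra hne
    exact hcon.2 i (Finset.mem_range.2 hi) (Finset.mem_filter.2 ⟨hK.1, hne⟩)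
  have hcard2 : ∀ i ∈ range L, ((range (N + 1)).filter (fun K =>
        ∑ j ∈ range (m + 1), q j * (fs (K + i + 1 + j) % 2) ≠ e)).card ≤ dfc m q e T := by
    intro i hi
    rw [Finset.mem_range] at hi
    unfold dfc
    apply Finset.card_le_card_of_injOn (fun K => K + i)
    · intro K hK
      simp only [Finset.coe_filter, Finset.mem_range, Set.mem_ofPred_eq] at hK ⊢
      exact ⟨by omega, hK.2⟩
    · intro x _ y _ h
      simp only at h
      omega
  have h2 : ((range (N + 1)).filter (fun K : ℕ => ¬ (e = 0 ∧ fs (K + a + 1) % 2 = 0))).card ≤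
      ((range (N + 1)).filter (fun K => ¬ (Q : ℤ) ∣ UU m q e K)).card + L * dfc m q e T := by
    refine (Finset.card_le_card hsub).trans ((Finset.card_union_le _ _).trans ?_)
    apply Nat.add_le_add_left
    refine Finset.card_biUnion_le.trans ?_
    calc _ ≤ ∑ i ∈ range L, dfc m q e T := Finset.sum_le_sum hcard2
      _ = L * dfc m q e T := by simp
  have h3 := hbad N
  have hd0 : (0 : ℝ) ≤ (dfc m q e T : ℝ) := by positivity
  have hV : (V 2 (UU m q e) (Q * N) : ℝ) ≤ u + B * (dfc m q e T : ℝ) := by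
    have h4 := V_UU m q e (Q * N)
    have h5 : ((V 2 (UU m q e) (Q * N) : ℤ) : ℝ) ≤ ((|UU m q e 0| +
        (∑ j ∈ range (m + 1), |q j| + |e|) * (dfc m q e (Q * N) : ℤ) : ℤ) : ℝ) := by
      exact_mod_cast h4
    have h6 : (dfc m q e (Q * N) : ℝ) ≤ (dfc m q e T : ℝ) := by
      exact_mod_cast dfc_mono m q e hQN
    have h7 : ((|UU m q e 0| +
        (∑ j ∈ range (m + 1), |q j| + |e|) * (dfc m q e (Q * N) : ℤ) : ℤ) : ℝ) =
        u + B * (dfc m q e (Q * N) : ℝ) := by
      rw [hu, hB]; push_cast; ring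
    rw [h7] at h5
    have := mul_le_mul_of_nonneg_left h6 hB0
    linarith
  have hV0 : (0 : ℝ) ≤ (V 2 (UU m q e) (Q * N) : ℝ) := by exact_mod_cast V_nonneg 2 _ _
  have h4 : (1 + (V 2 (UU m q e) (Q * N) : ℝ)) ^ Q ≤
      (1 + u + B) ^ Q * (1 + (dfc m q e T : ℝ)) ^ Q := by
    rw [← mul_pow]
    apply pow_le_pow_left₀ (by linarith)
    nlinarith
  have h5 : (1 + (dfc m q e T : ℝ)) ^ Q ≤ (1 + (dfc m q e T : ℝ)) ^ A.natAbs :=
    pow_le_pow_right₀ (by linarith) hQle
  have h6 : (1 : ℝ) + (dfc m q e T : ℝ) ≤ (1 + (dfc m q e T : ℝ)) ^ A.natAbs :=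
    le_self_pow₀ (by linarith) (by omega)
  calc _ ≤ (((range (N + 1)).filter (fun K => ¬ (Q : ℤ) ∣ UU m q e K)).card : ℝ) +
        L * (dfc m q e T : ℝ) := by exact_mod_cast h2
    _ ≤ C1 * ((1 + u + B) ^ Q * (1 + (dfc m q e T : ℝ)) ^ Q) + L * (dfc m q e T : ℝ) := by
        have := mul_le_mul_of_nonneg_left h4 hC1.le
        linarith
    _ ≤ C1 * ((1 + u + B) ^ Q * (1 + (dfc m q e T : ℝ)) ^ A.natAbs) +
        L * (1 + (dfc m q e T : ℝ)) ^ A.natAbs := by
        have h7 : (0 : ℝ) ≤ C1 * (1 + u + B) ^ Q := by positivity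
        have h8 := mul_le_mul_of_nonneg_left h5 h7
        have h9 : (L : ℝ) * (dfc m q e T : ℝ) ≤ L * (1 + (dfc m q e T : ℝ)) ^ A.natAbs :=
          mul_le_mul_of_nonneg_left (by linarith) (by positivity)
        nlinarith
    _ ≤ _ := by
        have : (0 : ℝ) ≤ (1 + (dfc m q e T : ℝ)) ^ A.natAbs := by positivity
        nlinarith

/-- **Theorem.** Let `b_k` be the `k`-th binary digit of `√2` after the point, let `q_0, …, q_m, e` be
integers with `A = q_0 + 2 q_1 + … + 2^m q_m ≠ 0` and `q_0 + … + q_m ≠ e` (the relation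
`q_0 b_k + … + q_m b_{k+m} = e` is not satisfied by the constant word `111…`). Then for some
`c > 0` the relation fails for at least `c N^{1/(2|A|)}` of the indices `1 ≤ k ≤ N`, for all
large `N`; if `e ≠ 0` (the relation is not satisfied by the constant word `000…` either), for at
least `c N^{1/|A|}` of them. -/
theorem result (m : ℕ) (q : ℕ → ℤ) (e : ℤ)
    (hA : ∑ j ∈ Finset.range (m + 1), q j * 2 ^ j ≠ 0)
    (h1 : ∑ j ∈ Finset.range (m + 1), q j ≠ e) :
    (∃ c : ℝ, 0 < c ∧ ∀ᶠ N : ℕ in Filter.atTop,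
      c * (N : ℝ) ^ ((1 : ℝ) / (2 * |((∑ j ∈ Finset.range (m + 1), q j * 2 ^ j : ℤ) : ℝ)|)) ≤
        (((Finset.range N).filter (fun k : ℕ =>
          ∑ j ∈ Finset.range (m + 1), q j * (⌊Real.sqrt 2 * (2 : ℝ) ^ (k + 1 + j)⌋ % 2) ≠ e)).card :
            ℝ)) ∧
    (e ≠ 0 → ∃ c : ℝ, 0 < c ∧ ∀ᶠ N : ℕ in Filter.atTop,
      c * (N : ℝ) ^ ((1 : ℝ) / |((∑ j ∈ Finset.range (m + 1), q j * 2 ^ j : ℤ) : ℝ)|) ≤
        (((Finset.range N).filter (fun k : ℕ =>
          ∑ j ∈ Finset.range (m + 1), q j * (⌊Real.sqrt 2 * (2 : ℝ) ^ (k + 1 + j)⌋ % 2) ≠ e)).card :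
            ℝ)) := by
  have hdfc : ∀ N : ℕ, ((Finset.range N).filter (fun k : ℕ =>
          ∑ j ∈ Finset.range (m + 1), q j * (⌊Real.sqrt 2 * (2 : ℝ) ^ (k + 1 + j)⌋ % 2) ≠ e)).card =
      dfc m q e N := by
    intro N
    unfold dfc fs
    push_cast
    rfl
  simp only [hdfc]
  obtain ⟨C, a, D, hC, hD, hcov⟩ := cover m q e hA h1
  set A : ℤ := ∑ j ∈ range (m + 1), q j * 2 ^ j with hAdef
  have hκ1 : 1 ≤ A.natAbs := by omega
  have hAabs : |((A : ℤ) : ℝ)| = (A.natAbs : ℝ) := by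
    rw [← Int.cast_abs, Int.abs_eq_natAbs]; rfl
  have hD1 : (1 : ℝ) ≤ D := by exact_mod_cast hD
  have hTD : ∀ T : ℕ, (T : ℝ) ≤ D * (((T / D : ℕ) : ℝ) + 1) := by
    intro T
    have : T < D * (T / D + 1) := Nat.lt_mul_div_succ T (by omega)
    exact_mod_cast this.le
  constructor
  · obtain ⟨C2, hC2, hones⟩ := ones_bound
    have key := power_bound (dfc m q e) (2 * A.natAbs) (by omega)
      (D * (C2 * (2 + a + C) ^ 2 + 1)) (by positivity) (by
      intro T
      have hd0 : (0 : ℝ) ≤ (dfc m q e T : ℝ) := by positivity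
      have hp1 : (1 : ℝ) ≤ (1 + (dfc m q e T : ℝ)) ^ (2 * A.natAbs) := one_le_pow₀ (by linarith)
      rcases lt_or_ge T D with hlt | hge
      · have h2 : (T : ℝ) ≤ D := by exact_mod_cast hlt.le
        have h3 : (0 : ℝ) ≤ D * (C2 * (2 + a + C) ^ 2) := by positivity
        have h4 : (D : ℝ) * 1 ≤ D * (1 + (dfc m q e T : ℝ)) ^ (2 * A.natAbs) :=
          mul_le_mul_of_nonneg_left hp1 (by positivity)
        have h5 : (0 : ℝ) ≤ D * (C2 * (2 + a + C) ^ 2) * (1 + (dfc m q e T : ℝ)) ^ (2 * A.natAbs) :=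
          by positivity
        calc (T : ℝ) ≤ D * 1 := by linarith
          _ ≤ D * (1 + (dfc m q e T : ℝ)) ^ (2 * A.natAbs) := h4
          _ ≤ _ := by nlinarith
      · have h2 := hcov T hge
        set n := T / D with hn
        have h3 : ones (n + 1) ≤ a + ((range (n + 1)).filter
            (fun K : ℕ => ¬ (e = 0 ∧ fs (K + a + 1) % 2 = 0))).card := by
          unfold ones
          have hsub : (range (n + 1)).filter (fun k : ℕ => fs (k + 1) % 2 = 1) ⊆
              range a ∪ ((range (n + 1)).filter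
                (fun K : ℕ => ¬ (e = 0 ∧ fs (K + a + 1) % 2 = 0))).image (fun K => K + a) := by
            intro k hk
            rw [Finset.mem_filter, Finset.mem_range] at hk
            rw [Finset.mem_union, Finset.mem_range, Finset.mem_image]
            rcases lt_or_ge k a with hka | hka
            · left; exact hka
            · right
              refine ⟨k - a, ?_, by omega⟩
              rw [Finset.mem_filter, Finset.mem_range]
              refine ⟨by omega, ?_⟩
              rintro ⟨_, h4⟩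
              rw [show k - a + a + 1 = k + 1 by omega] at h4
              rw [hk.2] at h4
              norm_num at h4
          refine (Finset.card_le_card hsub).trans ((Finset.card_union_le _ _).trans ?_)
          rw [Finset.card_range]
          exact Nat.add_le_add_left Finset.card_image_le _
        have h4 : (ones (n + 1) : ℝ) ≤ a + C * (1 + (dfc m q e T : ℝ)) ^ A.natAbs := by
          have h5 : (ones (n + 1) : ℝ) ≤ a + (((range (n + 1)).filter
            (fun K : ℕ => ¬ (e = 0 ∧ fs (K + a + 1) % 2 = 0))).card : ℝ) := by exact_mod_cast h3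
          linarith
        have h5 := hones (n + 1)
        have h6 : (1 : ℝ) ≤ (1 + (dfc m q e T : ℝ)) ^ A.natAbs := one_le_pow₀ (by linarith)
        have h7 : (1 : ℝ) + (ones (n + 1) : ℝ) ≤ (2 + a + C) * (1 + (dfc m q e T : ℝ)) ^ A.natAbs := by
          have ha0 : (0 : ℝ) ≤ a := by positivity
          nlinarith
        have h8 : (1 + (ones (n + 1) : ℝ)) ^ 2 ≤
            (2 + a + C) ^ 2 * (1 + (dfc m q e T : ℝ)) ^ (2 * A.natAbs) := by
          calc (1 + (ones (n + 1) : ℝ)) ^ 2 ≤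
              ((2 + a + C) * (1 + (dfc m q e T : ℝ)) ^ A.natAbs) ^ 2 :=
                pow_le_pow_left₀ (by positivity) h7 2
            _ = _ := by rw [mul_pow, ← pow_mul, mul_comm A.natAbs 2]
        have h9 : ((n : ℕ) : ℝ) + 1 ≤ C2 * ((2 + a + C) ^ 2 *
            (1 + (dfc m q e T : ℝ)) ^ (2 * A.natAbs)) := by
          have := mul_le_mul_of_nonneg_left h8 hC2.le
          push_cast at h5
          linarith
        calc (T : ℝ) ≤ D * ((n : ℝ) + 1) := hTD T
          _ ≤ D * (C2 * ((2 + a + C) ^ 2 * (1 + (dfc m q e T : ℝ)) ^ (2 * A.natAbs))) :=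
              mul_le_mul_of_nonneg_left h9 (by positivity)
          _ ≤ _ := by
              have : (0 : ℝ) ≤ D * (1 + (dfc m q e T : ℝ)) ^ (2 * A.natAbs) := by positivity
              nlinarith)
    obtain ⟨c, hc, hev⟩ := key
    refine ⟨c, hc, ?_⟩
    filter_upwards [hev] with N hN
    rw [hAabs]
    push_cast at hN
    exact hN
  · intro he
    have key := power_bound (dfc m q e) A.natAbs hκ1 (D * (C + 1)) (by positivity) (by
      intro T
      have hd0 : (0 : ℝ) ≤ (dfc m q e T : ℝ) := by positivity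
      have hp1 : (1 : ℝ) ≤ (1 + (dfc m q e T : ℝ)) ^ A.natAbs := one_le_pow₀ (by linarith)
      rcases lt_or_ge T D with hlt | hge
      · have h2 : (T : ℝ) ≤ D := by exact_mod_cast hlt.le
        have h4 : (D : ℝ) * 1 ≤ D * (1 + (dfc m q e T : ℝ)) ^ A.natAbs :=
          mul_le_mul_of_nonneg_left hp1 (by positivity)
        have h5 : (0 : ℝ) ≤ D * C * (1 + (dfc m q e T : ℝ)) ^ A.natAbs := by positivity
        calc (T : ℝ) ≤ D * 1 := by linarith
          _ ≤ D * (1 + (dfc m q e T : ℝ)) ^ A.natAbs := h4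
          _ ≤ _ := by nlinarith
      · have h2 := hcov T hge
        set n := T / D with hn
        have h3 : (range (n + 1)).filter (fun K : ℕ => ¬ (e = 0 ∧ fs (K + a + 1) % 2 = 0)) =
            range (n + 1) := by
          apply Finset.filter_true_of_mem
          rintro K _ ⟨h, _⟩
          exact he h
        rw [h3, Finset.card_range] at h2
        push_cast at h2
        calc (T : ℝ) ≤ D * ((n : ℝ) + 1) := hTD T
          _ ≤ D * (C * (1 + (dfc m q e T : ℝ)) ^ A.natAbs) :=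
              mul_le_mul_of_nonneg_left h2 (by positivity)
          _ ≤ _ := by
              have : (0 : ℝ) ≤ D * (1 + (dfc m q e T : ℝ)) ^ A.natAbs := by positivity
              nlinarith)
    obtain ⟨c, hc, hev⟩ := key
    refine ⟨c, hc, ?_⟩
    filter_upwards [hev] with N hN
    rw [hAabs]
    exact hN

end Pool.Agent.Results.MP_0308e6_nt.LinearRelations
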