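import Pool.Agent.H803R2.Lag.Affine

set_option autoImplicit false

/-!
Linear relations between consecutive digits of algebraic numbers which hold with few exceptions.
-/

namespace Pool.Agent.Results.MP_0308e6_nt.RelationRigidity

open Finset Polynomial Pool.Agent.H803R2.Lag

/-- The `k`-th base `b` digit of `x` after the point. -/
noncomputable def digit (b : ℕ) (x : ℝ) (k : ℕ) : ℤ := ⌊(b : ℝ) ^ k * x⌋ % (b : ℤ)

/-- The number of `1 ≤ k ≤ N` at which the relation `q_0 a_k + ... + q_m a_(k+m) = e` between the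
base `b` digits `a_k` of `x` fails. -/
noncomputable def failures (b : ℕ) (x : ℝ) (m : ℕ) (q : ℕ → ℤ) (e : ℤ) (N : ℕ) : ℕ :=
  #{k ∈ Icc 1 N | ∑ j ∈ range (m + 1), q j * digit b x (k + j) ≠ e}

/-- The number of `1 ≤ k ≤ N` such that the digits `a_k, ..., a_(k+H-1)` are neither all `0` nor
all `b - 1`. -/
noncomputable def nonconstant (b : ℕ) (x : ℝ) (H N : ℕ) : ℕ :=
  #{k ∈ Icc 1 N | ¬ ((∀ i < H, digit b x (k + i) = 0) ∨ (∀ i < H, digit b x (k + i) = b - 1))}

theorem failures_eq {b : ℕ} (hb : 2 ≤ b) (x : ℝ) (m : ℕ) (q : ℕ → ℤ) (e : ℤ) (N : ℕ) :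
    failures b x m q e N = fails b m q e x N := by
  unfold failures fails
  congr 1
  apply Finset.filter_congr
  intro n hn
  rw [mem_Icc] at hn
  have : ∑ j ∈ range (m + 1), q j * digit b x (n + j) = rel b m q x n := by
    unfold rel
    apply Finset.sum_congr rfl
    intro j _
    rw [dig_eq_emod hb x (by omega)]
    rfl
  rw [this]

theorem nonconstant_eq {b : ℕ} (hb : 2 ≤ b) (x : ℝ) (H N : ℕ) :
    nonconstant b x H N = nonconst b x H N := by
  unfold nonconstant nonconst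
  congr 1
  apply Finset.filter_congr
  intro n hn
  rw [mem_Icc] at hn
  have : ∀ i, Pool.Agent.H803R2.PerDist.dig b x (n + i) = digit b x (n + i) := by
    intro i
    rw [dig_eq_emod hb x (by omega)]
    rfl
  simp only [this]

/-- Let `a_k` be the base `b` digits of a real root `x` of `P ∈ ℤ[X]`, and let
`q_0 a_k + ... + q_m a_(k+m) = e` be a relation with `A = q_0 + q_1 b + ... + q_m b^m ≠ 0` and the
leading coefficient of `P` coprime to `(b - 1) A`.

(1) The number of windows of any length `H` up to `N` which are neither `00...0` nor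
`(b-1)...(b-1)` is bounded by a power (depending on `b, q, deg P` only) of the number of failures
of the relation up to `κ N`.

(2) If the relation is violated by at least one of the two constant words `00...`,
`(b-1)(b-1)...` (that is, not `e = q_0 + ... + q_m = 0`) and `x` is irrational, the relation fails
at least `c N ^ δ` times.

(3) For `x = √2`, `e = 0` and `|A| ≥ 2`, the exponent in (1) is `|A|`. -/
theorem result :
    (∀ (b : ℕ), 2 ≤ b → ∀ (m : ℕ) (q : ℕ → ℤ),
      ∑ j ∈ range (m + 1), q j * (b : ℤ) ^ j ≠ 0 →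
      (∀ D : ℕ, ∃ κ : ℕ, ∀ P : ℤ[X], 1 ≤ P.natDegree → P.natDegree ≤ D →
        IsCoprime P.leadingCoeff (((b : ℤ) - 1) * ∑ j ∈ range (m + 1), q j * (b : ℤ) ^ j) →
        ∀ x : ℝ, aeval x P = 0 → ∀ H : ℕ, ∃ c : ℕ, ∀ (e : ℤ) (N : ℕ),
          nonconstant b x H N ≤ c * (failures b x m q e (κ * N) + 1) ^ κ) ∧
      (∀ P : ℤ[X], P ≠ 0 →
        IsCoprime P.leadingCoeff (((b : ℤ) - 1) * ∑ j ∈ range (m + 1), q j * (b : ℤ) ^ j) →
        ∀ x : ℝ, Irrational x → aeval x P = 0 →
        ∀ e : ℤ, ¬ (e = 0 ∧ ∑ j ∈ range (m + 1), q j = 0) →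
        ∃ c δ : ℝ, 0 < c ∧ 0 < δ ∧ ∀ᶠ N : ℕ in Filter.atTop,
          c * (N : ℝ) ^ δ ≤ (failures b x m q e N : ℝ))) ∧
    (∀ (b : ℕ), 2 ≤ b → ∀ (m : ℕ) (q : ℕ → ℤ) (A : ℕ), 2 ≤ A →
      (∑ j ∈ range (m + 1), q j * (b : ℤ) ^ j).natAbs = A →
      ∀ H : ℕ, ∃ c : ℕ, ∀ N : ℕ,
        nonconstant b (√2) H N ≤ c * (failures b (√2) m q 0 (A * N) + 1) ^ A) := by
  refine ⟨?_, ?_⟩
  · intro b hb m q hA
    refine ⟨?_, ?_⟩
    · intro D
      obtain ⟨κ, _, hκ⟩ := rigidity_affine hb m q D hA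
      refine ⟨κ, ?_⟩
      intro P h1 h2 hc x hx H
      obtain ⟨c, hcN⟩ := hκ P h1 h2 x hx hc H
      refine ⟨c, ?_⟩
      intro e N
      rw [failures_eq hb, nonconstant_eq hb]
      exact hcN e N
    · intro P hP0 hc x hx hPx e he
      have h2 := Pool.Agent.H949R2.natDegree_ge_two x hx P hPx hP0
      obtain ⟨c, δ, h3, h4, h5⟩ := power_bound hb m q e hA hx P (by omega) hPx hc he
      refine ⟨c, δ, h3, h4, ?_⟩
      filter_upwards [h5] with N hN
      rw [failures_eq hb]
      exact hN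
  · intro b hb m q A hA2 hAA H
    have hP2 : (X ^ 2 - C 2 : ℤ[X]).natDegree = 2 := natDegree_X_pow_sub_C
    have hlc : (X ^ 2 - C 2 : ℤ[X]).leadingCoeff = 1 := (monic_X_pow_sub_C 2 (by norm_num))
    have hx : aeval (√2) (X ^ 2 - C 2 : ℤ[X]) = 0 := by
      rw [map_sub, map_pow, aeval_X, aeval_C, Real.sq_sqrt (by norm_num)]
      norm_num
    have hAA' : (AA b m q).natAbs = A := hAA
    have hA0 : AA b m q ≠ 0 := by
      intro h
      rw [h] at hAA'
      simp at hAA'
      omega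
    obtain ⟨c, hc⟩ := rigidity hb m q (√2) (X ^ 2 - C 2) (by omega) hx hA0
      (by rw [hlc]; exact isCoprime_one_left) A hA2
      (by
        intro p hp
        have hpp := Nat.prime_of_mem_primeFactors hp
        refine ⟨1, by rw [hP2, pow_one]; exact hpp.two_le, ?_⟩
        rw [pow_one, hAA']
        exact Nat.le_of_dvd (by omega) (Nat.ordProj_dvd A p)) H
    refine ⟨c, ?_⟩
    intro N
    rw [failures_eq hb, nonconstant_eq hb]
    exact hc N

end Pool.Agent.Results.MP_0308e6_nt.RelationRigidity
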