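import Mathlib
import Pool.Agent.H648R2.S.Digits

set_option autoImplicit false

namespace Pool.Agent.Results.MP_0308e6_nt.WindowIndependence

/-- Linear independence of long digit windows of algebraic irrational numbers: for every real
algebraic irrational number `ξ`, every base `b ≥ 2` and all `D`, `C`, if `m` is large enough then
any `D` windows of `m` consecutive base-`b` digits of `ξ` which start at `D` distinct places
`t 0, …, t (D-1) ≤ C * m` are linearly independent over the real numbers. -/
theorem result :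
    ∀ (ξ : ℝ), IsAlgebraic ℚ ξ → Irrational ξ → ∀ b : ℕ, 2 ≤ b → ∀ D C : ℕ,
      ∃ M : ℕ, ∀ m : ℕ, M ≤ m → ∀ t : Fin D → ℕ, Function.Injective t → (∀ j, t j ≤ C * m) →
        LinearIndependent ℝ (fun (j : Fin D) (i : Fin m) =>
          ((⌊ξ * (b : ℝ) ^ (t j + (i : ℕ) + 1)⌋ % (b : ℤ) : ℤ) : ℝ)) := by
  intro ξ hξ hirr b hb D C
  exact Pool.Agent.H648R2.S.dig_indep b hb ξ hξ hirr D C

end Pool.Agent.Results.MP_0308e6_nt.WindowIndependence
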